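import Pool.Agent.W307.SE.Stm

/-! # TSE-SELC: comparison of two descriptions of the 2-Selmer group -/

set_option autoImplicit false

namespace Pool.Agent.W597.SE
open Pool.Agent.W307.SE

/-- the class of the product -/
theorem prodSq {K : Type} [Field K] {A B e1 e2 e3 : ℤ} {d : ℤ → ℤ}
    (hK : ∀ X : K, X ^ 3 + A * X + B = (X - e1) * (X - e2) * (X - e3))
    (r1 : e1 ^ 3 + A * e1 + B = 0) (r2 : e2 ^ 3 + A * e2 + B = 0) (r3 : e3 ^ 3 + A * e3 + B = 0)
    (h : LocR K A B d) : IsSquare ((d e1 : K) * d e2 * d e3) := by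
  obtain ⟨X, Y, hY, h1, h2⟩ := h
  rw [hK] at h1
  have h3 := ((h2 e1 r1).mul (h2 e2 r2)).mul (h2 e3 r3)
  obtain ⟨s, hs⟩ := h3
  refine ⟨s / Y, ?_⟩
  have h4 : (X - e1) * d e1 * ((X - e2) * d e2) * ((X - e3) * d e3) =
      Y ^ 2 * ((d e1 : K) * d e2 * d e3) := by
    rw [h1]
    ring
  rw [h4] at hs
  rw [div_mul_div_comm, ← hs]
  field_simp

/-- the local condition is transported -/
theorem locT {K : Type} [Field K] [CharZero K] {A B e1 e2 e3 M N : ℤ} {q : ℚ} {d : ℤ → ℤ}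
    (hK : ∀ X : K, X ^ 3 + A * X + B = (X - e1) * (X - e2) * (X - e3))
    (r1 : e1 ^ 3 + A * e1 + B = 0) (r2 : e2 ^ 3 + A * e2 + B = 0) (hq : q ≠ 0)
    (hM : ((e2 - e1 : ℤ) : ℚ) = M * q ^ 2) (hN : ((e3 - e1 : ℤ) : ℚ) = N * q ^ 2)
    (h : LocR K A B d) : Loc K M N (d e1) (d e2) := by
  obtain ⟨X, Y, hY, h1, h2⟩ := h
  rw [hK] at h1
  have hq' : ((q : ℚ) : K) ≠ 0 := Rat.cast_ne_zero.2 hq
  have hM' : (e2 : K) - e1 = M * (q : K) ^ 2 := by
    have := congrArg (fun r : ℚ => (r : K)) hM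
    push_cast at this
    exact this
  have hN' : (e3 : K) - e1 = N * (q : K) ^ 2 := by
    have := congrArg (fun r : ℚ => (r : K)) hN
    push_cast at this
    exact this
  have x2 : (X - e1) / (q : K) ^ 2 - M = (X - e2) / (q : K) ^ 2 := by
    rw [eq_div_iff (by positivity), sub_mul, div_mul_cancel₀ _ (by positivity)]
    linear_combination hM'
  have x3 : (X - e1) / (q : K) ^ 2 - N = (X - e3) / (q : K) ^ 2 := by
    rw [eq_div_iff (by positivity), sub_mul, div_mul_cancel₀ _ (by positivity)]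
    linear_combination hN'
  refine ⟨(X - e1) / (q : K) ^ 2, Y / (q : K) ^ 3, div_ne_zero hY (pow_ne_zero _ hq'), ?_, ?_, ?_⟩
  · rw [x2, x3, div_pow, h1]
    field_simp
  · obtain ⟨s, hs⟩ := h2 e1 r1
    refine ⟨s / q, ?_⟩
    rw [div_mul_div_comm, ← hs]
    field_simp
  · rw [x2]
    obtain ⟨s, hs⟩ := h2 e2 r2
    refine ⟨s / q, ?_⟩
    rw [div_mul_div_comm, ← hs]
    field_simp

/-- squarefree integers whose product is a square everywhere are equal -/
theorem eq_of_sq {a b : ℤ} (ha : Squarefree a) (hb : Squarefree b)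
    (hR : IsSquare ((a : ℝ) * b)) (hp : ∀ (p : ℕ) [Fact p.Prime], IsSquare ((a : ℚ_[p]) * b)) :
    a = b := by
  have ha0 : a ≠ 0 := ha.ne_zero
  have hb0 : b ≠ 0 := hb.ne_zero
  have hsa : Squarefree a.natAbs := Int.squarefree_natAbs.2 ha
  have hsb : Squarefree b.natAbs := Int.squarefree_natAbs.2 hb
  have hpar : ∀ (p : ℕ), p.Prime → Even (padicValInt p a + padicValInt p b) := by
    intro p hpp
    have := Fact.mk hpp
    obtain ⟨r, hr⟩ := hp p
    have ha' : (a : ℚ_[p]) ≠ 0 := Int.cast_ne_zero.2 ha0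
    have hb' : (b : ℚ_[p]) ≠ 0 := Int.cast_ne_zero.2 hb0
    have hr0 : r ≠ 0 := by
      rintro rfl
      rw [mul_zero] at hr
      exact (mul_ne_zero ha' hb') hr
    have h1 := congrArg Padic.valuation hr
    rw [Padic.valuation_mul ha' hb', Padic.valuation_mul hr0 hr0, Padic.valuation_intCast,
      Padic.valuation_intCast] at h1
    have h2 : Even ((padicValInt p a : ℤ) + padicValInt p b) := ⟨_, h1⟩
    exact_mod_cast h2
  have hle : ∀ (p : ℕ) (c : ℤ), p.Prime → Squarefree c.natAbs → padicValInt p c ≤ 1 := by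
    intro p c hpp hc
    have := hc.natFactorization_le_one p
    rwa [Nat.factorization_def _ hpp] at this
  have hnat : a.natAbs = b.natAbs := by
    refine Nat.eq_of_factorization_eq (Int.natAbs_ne_zero.2 ha0) (Int.natAbs_ne_zero.2 hb0)
      fun p => ?_
    by_cases hpp : p.Prime
    · rw [Nat.factorization_def _ hpp, Nat.factorization_def _ hpp]
      have h1 := hpar p hpp
      have h2 := hle p a hpp hsa
      have h3 := hle p b hpp hsb
      obtain ⟨k, hk⟩ := h1
      show padicValInt p a = padicValInt p b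
      omega
    · rw [Nat.factorization_eq_zero_of_not_prime _ hpp, Nat.factorization_eq_zero_of_not_prime _ hpp]
  have hsgn : 0 ≤ a * b := by
    obtain ⟨r, hr⟩ := hR
    have : (0 : ℝ) ≤ ((a * b : ℤ) : ℝ) := by
      push_cast
      rw [hr]
      exact mul_self_nonneg r
    exact_mod_cast this
  rcases Int.natAbs_eq_natAbs_iff.1 hnat with h | h
  · exact h
  · exfalso
    rw [h] at hsgn
    have : 0 < b * b := mul_self_pos.2 hb0
    linarith

theorem selc : SELC := by
  intro A B e1 e2 e3 M N q _ hpoly hq hM hN hfin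
  have c0 := hpoly 0
  have c1 := hpoly 1
  have c2 := hpoly (-1)
  have s1 : e1 + e2 + e3 = 0 := by linarith
  have s2 : A = e1 * e2 + e1 * e3 + e2 * e3 := by linarith
  have s3 : B = -(e1 * e2 * e3) := by linarith
  have hK : ∀ (K : Type) [Field K] (X : K),
      X ^ 3 + A * X + B = (X - e1) * (X - e2) * (X - e3) := by
    intro K _ X
    have t1 : (e1 : K) + e2 + e3 = 0 := by exact_mod_cast congrArg (fun z : ℤ => (z : K)) s1
    rw [s2, s3]
    push_cast
    linear_combination (X ^ 2) * t1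
  have r1 : e1 ^ 3 + A * e1 + B = 0 := by rw [hpoly]; ring
  have r2 : e2 ^ 3 + A * e2 + B = 0 := by rw [hpoly]; ring
  have r3 : e3 ^ 3 + A * e3 + B = 0 := by rw [hpoly]; ring
  have hmaps : ∀ d ∈ SelR A B, (fun d : ℤ → ℤ => (d e1, d e2)) d ∈ Sel M N := by
    rintro d ⟨hd1, -, hdR, hdp⟩
    refine ⟨hd1 e1, hd1 e2, locT (hK ℝ) r1 r2 hq hM hN hdR, fun p _ => ?_⟩
    exact locT (hK ℚ_[p]) r1 r2 hq hM hN (hdp p)
  have hinj : Set.InjOn (fun d : ℤ → ℤ => (d e1, d e2)) (SelR A B) := by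
    rintro d ⟨hd1, hd2, hdR, hdp⟩ d' ⟨hd1', hd2', hdR', hdp'⟩ heq
    have h1 : d e1 = d' e1 := congrArg Prod.fst heq
    have h2 : d e2 = d' e2 := congrArg Prod.snd heq
    have hloc : ∀ (K : Type) [Field K] [CharZero K], LocR K A B d → LocR K A B d' →
        IsSquare ((d e3 : K) * d' e3) := by
      intro K _ _ h h'
      obtain ⟨s, hs⟩ := prodSq (hK K) r1 r2 r3 h
      obtain ⟨s', hs'⟩ := prodSq (hK K) r1 r2 r3 h'
      rw [← h1, ← h2] at hs'
      have n1 : (d e1 : K) ≠ 0 := Int.cast_ne_zero.2 (hd1 e1).ne_zero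
      have n2 : (d e2 : K) ≠ 0 := Int.cast_ne_zero.2 (hd1 e2).ne_zero
      refine ⟨s * s' / (d e1 * d e2), ?_⟩
      have h3 : s * s' * (s * s') =
          ((d e1 : K) * d e2 * d e3) * ((d e1 : K) * d e2 * d' e3) := by
        rw [hs, hs']
        ring
      rw [div_mul_div_comm, h3]
      field_simp
    have h3 : d e3 = d' e3 := by
      refine eq_of_sq (hd1 e3) (hd1' e3) (hloc ℝ hdR hdR') fun p _ => ?_
      exact hloc ℚ_[p] (hdp p) (hdp' p)
    funext e
    by_cases he : e ^ 3 + A * e + B = 0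
    · rw [hpoly] at he
      rcases mul_eq_zero.1 he with he | he
      · rcases mul_eq_zero.1 he with he | he
        · rw [sub_eq_zero.1 he, h1]
        · rw [sub_eq_zero.1 he, h2]
      · rw [sub_eq_zero.1 he, h3]
    · rw [hd2 e he, hd2' e he]
  exact ⟨Set.Finite.of_injOn hmaps hinj hfin, Set.ncard_le_ncard_of_injOn _ hmaps hinj hfin⟩

end Pool.Agent.W597.SE
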